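import Pool.Agent.Q169.CY.StepInj
import Pool.Agent.Q169.CY.Base
import Pool.Agent.Q169.CY.Fin

/-!
# Alpha-labelings of the prism graphs `C_{4m+2} × P_{2n+1}`

The graph `C_{4m+2} × P_{2n+1}` has an alpha-labeling for all `m, n ≥ 1`.

Put `k = 4m + 2`.  All vertices are described by their distance to the threshold `t`: a low vertex with the distance `y`
has the label `t - y`, a high one the label `t + 1 + y`, so the value of an edge is `1` plus the sum of the distances of its
ends, and we need: in every class the distances are distinct, and the sums on the edges are exactly `0, ..., q - 1`.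

* Two new layers `Y`, `Z` can be put behind a last layer `X` if (after moving the old low vertices by `c` and the old high
  ones by `4k - c`) the sums of the `4k` new edges are exactly `0, ..., 4k - 1` (`Stp`, `Off.step`).  If `Z` is `X` up to a
  rotation of the cycle this can be repeated for ever (`all_layers`).
* For `m ≥ 3` such `X`, `Y`, `Z` are `X0 m`, `Y2 m`, `Z2 m` with `c = 8m + 5`; all of them are linear with a bounded number
  of breaks (`stp`).  The layer `X0` has the distances `0, 1, ..., m, m+2, ..., 2m+1` at the even vertices and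
  `0, 1, ..., 2m-1, 2m+1` at the odd ones.
* For `m = 4` and `m ≥ 6` there is an alpha-labeling of `C_k × P_3` with the last layer `X0 m` (`off_three`).  The cases
  `m = 1, 2, 3, 5` are checked by evaluation (`Fin`), with other layers.
-/

set_option autoImplicit false

namespace Pool.Agent.Results.MP_d9e2d7_co.AllPrisms

open SimpleGraph Pool.Agent.Q169.CY

/-- For all `m ≥ 1`, `n ≥ 1` the graph `C_{4m+2} × P_{2n+1}` has an alpha-labeling. -/
theorem result (m n : ℕ) (hm : 1 ≤ m) (hn : 1 ≤ n) :
    HasAlpha (cycleGraph (4 * m + 2) □ pathGraph (2 * n + 1)) := by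
  have hcase : m = 1 ∨ m = 2 ∨ m = 3 ∨ m = 5 ∨ (4 ≤ m ∧ m ≠ 5) := by omega
  rcases hcase with rfl | rfl | rfl | rfl | ⟨h4, h5⟩
  · exact alpha_1 n hn
  · exact alpha_2 n hn
  · exact alpha_3 n hn
  · exact alpha_5 n hn
  · refine all_layers (k := 4 * m + 2) (by omega) (by omega) (X0 m) (Y2 m) (Z2 m) (8 * m + 5) (by positivity)
      (by push_cast; omega) 2 (by omega) (by norm_num) (stp (by omega)) (stp_rot (by omega)) ?_ n hn
    refine ⟨yb m, 10 * m + 5, 10 * m + 4, off_three h4 h5, ?_, ?_⟩
    · push_cast
      ring
    · intro i hi
      simp [yb]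

end Pool.Agent.Results.MP_d9e2d7_co.AllPrisms
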